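import Mathlib
import Pool.Agent.H17.Telg

set_option autoImplicit false

namespace Pool.Agent.Results.MP_1d4a49_gt.Neg
open Set Filter Topology TopologicalSpace Pool.Agent.H17.W1

/-- `c(Y) ≤ τ`: disjoint families of non-empty open sets have size at most `τ`. -/
def CellLe (Y : Type) [TopologicalSpace Y] (τ : Cardinal.{0}) : Prop :=
  ∀ 𝒜 : Set (Set Y), (∀ A ∈ 𝒜, IsOpen A ∧ A.Nonempty) → 𝒜.Pairwise Disjoint → Cardinal.mk 𝒜 ≤ τ

/-- `cc(X) ≤ τ`: every subspace has cellularity at most `τ`. -/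
def HCellLe (X : Type) [TopologicalSpace X] (τ : Cardinal.{0}) : Prop := ∀ Y : Set X, CellLe Y τ

theorem free {K : Type} [TopologicalSpace K] [CompactSpace K] [T2Space K] (p : K)
    (h : ∀ 𝒢 : Set (Set K), 𝒢.Countable → (∀ G ∈ 𝒢, IsOpen G ∧ G.Nonempty) →
      ∃ U, IsOpen U ∧ p ∈ U ∧ ∀ G ∈ 𝒢, ¬ G ⊆ U) : ¬ HCellLe K Cardinal.aleph0 := by
  classical
  have h1 : ∀ 𝒢 : Set (Set K), ∃ q : Set K × Set K, IsOpen q.1 ∧ IsOpen q.2 ∧ p ∈ q.1 ∧
      Disjoint (closure q.1) (closure q.2) ∧ (𝒢.Countable → (∀ G ∈ 𝒢, IsOpen G ∧ G.Nonempty) →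
        ∀ G ∈ 𝒢, (G ∩ q.2).Nonempty) := fun 𝒢 => by
    by_cases hG : 𝒢.Countable ∧ ∀ G ∈ 𝒢, IsOpen G ∧ G.Nonempty
    · obtain ⟨U, hU, hp, h2⟩ := h 𝒢 hG.1 hG.2
      obtain ⟨V, hV, h3, h4⟩ := normal_exists_closure_subset isClosed_singleton hU
        (singleton_subset_iff.2 hp)
      obtain ⟨B, hB, h5, h6⟩ := normal_exists_closure_subset isClosed_singleton hV h3
      refine ⟨(B, (closure V)ᶜ), hB, isClosed_closure.isOpen_compl, h5 rfl,
        Set.disjoint_left.2 fun x hx hx' => ?_, fun _ _ G hG' => ?_⟩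
      · exact closure_minimal (compl_subset_compl.2 subset_closure) hV.isClosed_compl hx' (h6 hx)
      · obtain ⟨x, hx, hx'⟩ := not_subset.1 (h2 G hG')
        exact ⟨x, hx, fun h => hx' (h4 h)⟩
    · exact ⟨(univ, ∅), isOpen_univ, isOpen_empty, trivial, by simp, fun a b => (hG ⟨a, b⟩).elim⟩
  choose q h2 h3 h4 h5 h6 using h1
  let Gs : (W → Set K × Set K) → W → Set (Set K) := fun f α =>
    {G | G.Nonempty ∧ ∃ a b : Finset W, (∀ x ∈ a, x < α) ∧ (∀ x ∈ b, x < α) ∧
      G = (⋂ x ∈ a, (f x).1) ∩ ⋂ x ∈ b, (f x).2}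
  let f : W → Set K × Set K := (wellFounded_lt (α := W)).fix fun α g =>
    q (Gs (fun x => if h : x < α then g x h else (∅, ∅)) α)
  have hf : ∀ α, f α = q (Gs f α) := fun α => by
    rw [show f α = _ from WellFounded.fix_eq _ _ α]
    congr 1
    ext G
    refine and_congr_right fun _ => exists₂_congr fun a b => and_congr_right fun ha =>
      and_congr_right fun hb => ?_
    rw [iInter₂_congr fun x hx => congrArg Prod.fst (dif_pos (ha x hx)),
      iInter₂_congr fun x hx => congrArg Prod.snd (dif_pos (hb x hx))]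
  have ho : ∀ α, IsOpen (f α).1 ∧ IsOpen (f α).2 := fun α => hf α ▸ ⟨h2 _, h3 _⟩
  have key : ∀ b a : Finset W, (∀ x ∈ a, ∀ y ∈ b, x < y) →
      ((⋂ x ∈ a, (f x).1) ∩ ⋂ x ∈ b, (f x).2).Nonempty := by
    intro b
    induction b using Finset.induction_on_max with
    | empty => exact fun a _ => ⟨p, mem_iInter₂.2 fun x _ => hf x ▸ h4 _, by simp⟩
    | insert α b hb ih =>
      intro a ha
      rw [Finset.set_biInter_insert, inter_comm (f α).2, ← inter_assoc, hf α]
      refine h6 _ ?_ ?_ _ ⟨ih a fun x hx y hy => ha x hx y (Finset.mem_insert_of_mem hy), a, b,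
        fun x hx => ha x hx α (Finset.mem_insert_self _ _), hb, rfl⟩
      · have hc : {a : Finset W | ∀ x ∈ a, x < α}.Countable :=
          ((countable_ofPred_finite_subset (cIio α)).preimage_of_injOn
            (f := fun a : Finset W => (a : Set W)) Finset.coe_injective.injOn).mono
            fun a ha => show (a : Set W).Finite ∧ (a : Set W) ⊆ Iio α from ⟨a.finite_toSet, ha⟩
        refine ((hc.prod hc).image fun r => (⋂ x ∈ r.1, (f x).1) ∩ ⋂ x ∈ r.2, (f x).2).mono ?_
        rintro _ ⟨-, a, b, h1, h2, rfl⟩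
        exact ⟨(a, b), ⟨h1, h2⟩, rfl⟩
      · rintro _ ⟨h1, a, b, -, -, rfl⟩
        exact ⟨(isOpen_biInter_finset fun x _ => (ho x).1).inter
          (isOpen_biInter_finset fun x _ => (ho x).2), h1⟩
  have h7 : ∀ α, ∃ x, ∀ β, x ∈ closure (if β ≤ α then (f β).1 else (f β).2) := fun α => by
    obtain ⟨x, -, hx⟩ := isCompact_univ.inter_iInter_nonempty
      (fun β => closure (if β ≤ α then (f β).1 else (f β).2)) (fun _ => isClosed_closure)
      fun u => by
        obtain ⟨x, hx, hx'⟩ := key (u.filter fun β => ¬ β ≤ α) (u.filter fun β => β ≤ α)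
          fun x hx y hy => (Finset.mem_filter.1 hx).2.trans_lt
            (not_le.1 (Finset.mem_filter.1 hy).2)
        refine ⟨x, trivial, mem_iInter₂.2 fun β hβ => subset_closure ?_⟩
        split_ifs with h
        · exact mem_iInter₂.1 hx β (Finset.mem_filter.2 ⟨hβ, h⟩)
        · exact mem_iInter₂.1 hx' β (Finset.mem_filter.2 ⟨hβ, h⟩)
    exact ⟨x, mem_iInter.1 hx⟩
  choose x hx using h7
  have hd : ∀ β, Disjoint (closure (f β).1) (closure (f β).2) := fun β => hf β ▸ h5 _
  have h8 : ∀ α, ∃ O, IsOpen O ∧ ∀ γ, x γ ∈ O ↔ γ = α := fun α => by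
    have hne : {β | α < β}.Nonempty := exists_gt α
    have m1 : α < (wellFounded_lt (α := W)).min _ hne := (wellFounded_lt (α := W)).min_mem _ hne
    refine ⟨(closure (f α).2)ᶜ ∩ (closure (f ((wellFounded_lt (α := W)).min _ hne)).1)ᶜ,
      isClosed_closure.isOpen_compl.inter isClosed_closure.isOpen_compl, fun γ => ⟨fun h => ?_, ?_⟩⟩
    · by_contra hn
      rcases lt_or_gt_of_ne hn with h' | h'
      · exact h.1 (by simpa [not_le.2 h'] using hx γ α)
      · have := not_lt.1 ((wellFounded_lt (α := W)).not_lt_min {β | α < β} (x := γ) h')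
        exact h.2 (by simpa [this] using hx γ ((wellFounded_lt (α := W)).min _ hne))
    · rintro rfl
      refine ⟨Set.disjoint_left.1 (hd _) (by simpa using hx γ γ), Set.disjoint_right.1 (hd _) ?_⟩
      simpa [not_le.2 m1] using hx γ ((wellFounded_lt (α := W)).min _ hne)
  choose O hO hO' using h8
  intro hc
  have h9 := hc (range x) (range fun α => Subtype.val ⁻¹' O α) (by
    rintro _ ⟨α, rfl⟩
    exact ⟨(hO α).preimage continuous_subtype_val, ⟨_, α, rfl⟩, (hO' α α).2 rfl⟩) (by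
    rintro _ ⟨α, rfl⟩ _ ⟨β, rfl⟩ hne
    refine Set.disjoint_left.2 ?_
    rintro ⟨_, γ, rfl⟩ h1 h2
    exact hne (by rw [← (hO' α γ).1 h1, ← (hO' β γ).1 h2]))
  rw [Cardinal.mk_range_eq _ fun α β e => by
    have : (⟨x α, α, rfl⟩ : range x) ∈ (Subtype.val ⁻¹' O α : Set (range x)) := (hO' α α).2 rfl
    rw [show (Subtype.val ⁻¹' O α : Set (range x)) = Subtype.val ⁻¹' O β from e] at this
    exact (hO' β α).1 this, Cardinal.mk_le_aleph0_iff] at h9
  exact not_countable h9

abbrev C : Type := ℕ → Bool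

def X : Type := {f : C → Bool // Continuous f}

instance : TopologicalSpace X := instTopologicalSpaceSubtype

instance : Uncountable C := by
  obtain ⟨e, he⟩ := inj_cantor
  exact he.uncountable

instance : Countable X := by
  have : Countable (Clopens C) := Clopens.countable_iff_secondCountable.2 inferInstance
  refine Function.Injective.countable (f := fun f : X => (⟨f.1 ⁻¹' {true},
    (isClopen_discrete _).preimage f.2⟩ : Clopens C)) fun f g h => Subtype.ext (funext fun x => ?_)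
  have : x ∈ f.1 ⁻¹' {true} ↔ x ∈ g.1 ⁻¹' {true} := by
    rw [show f.1 ⁻¹' {true} = g.1 ⁻¹' {true} from congrArg Clopens.carrier h]
  exact Bool.eq_iff_iff.2 this

theorem result : ∃ (X : Type) (_ : TopologicalSpace X), T35Space X ∧ HCellLe X Cardinal.aleph0 ∧
    ∀ (K : Type) [TopologicalSpace K] [CompactSpace K] [T2Space K] (e : X → K),
      IsDenseEmbedding e → ¬ HCellLe K Cardinal.aleph0 := by
  classical
  refine ⟨X, inferInstance, (inferInstance : T35Space {f : C → Bool // Continuous f}),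
    fun Y 𝒜 h1 h2 => ?_, fun K _ _ _ e he => ?_⟩
  · choose y hy using fun A : 𝒜 => (h1 A A.2).2
    refine Cardinal.mk_le_aleph0_iff.2 (Function.Injective.countable (f := y) fun A B h => ?_)
    by_contra hn
    exact Set.disjoint_left.1 (h2 A.2 B.2 fun e => hn (Subtype.ext e)) (hy A) (h ▸ hy B)
  · refine free (e ⟨fun _ => false, continuous_const⟩) fun 𝒢 h1 h2 => ?_
    have h3 : ∀ G ∈ 𝒢, ∃ (f : X) (F : Finset C), ∀ g : X, (∀ x ∈ F, g.1 x = f.1 x) → e g ∈ G := by
      intro G hG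
      obtain ⟨f, hf⟩ := he.dense.exists_mem_open (h2 G hG).1 (h2 G hG).2
      obtain ⟨O, hO, hO'⟩ := isOpen_induced_iff.1 ((h2 G hG).1.preimage he.continuous)
      obtain ⟨F, u, h3, h4⟩ := isOpen_pi_iff.1 hO f.1 (hO'.ge hf)
      exact ⟨f, F, fun g hg => hO'.le (h4 fun x hx => hg x hx ▸ (h3 x hx).2)⟩
    have : Nonempty X := ⟨⟨fun _ => false, continuous_const⟩⟩
    choose! f F hF using h3
    obtain ⟨a, ha⟩ := nonempty_compl.2 fun h : (⋃ G ∈ 𝒢, (F G : Set C)) = univ =>
      not_countable_univ (h ▸ h1.biUnion fun G _ => (F G).countable_toSet)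
    obtain ⟨U, hU, hU'⟩ := he.isInducing.isOpen_iff.1 ((isOpen_discrete {false}).preimage
      (f := fun g : X => g.1 a) ((continuous_apply a).comp continuous_subtype_val))
    refine ⟨U, hU, hU'.ge rfl, fun G hG hGU => ?_⟩
    obtain ⟨V, hV, haV, hVF⟩ := compact_exists_isClopen_in_isOpen
      (F G).finite_toSet.isClosed.isOpen_compl (fun h => ha (mem_biUnion hG h) : a ∈ (F G : Set C)ᶜ)
    have hc : Continuous fun x => V.boolIndicator x || (f G).1 x :=
      (continuous_of_discreteTopology (f := fun p : Bool × Bool => p.1 || p.2)).comp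
        (((continuous_boolIndicator_iff_isClopen V).2 hV).prodMk (f G).2)
    have h4 := hU'.le (hGU (hF G hG ⟨_, hc⟩ fun x hx => by
      simp [(V.notMem_iff_boolIndicator x).1 fun h => hVF h hx]))
    have h5 : (V.boolIndicator a || (f G).1 a) = false := h4
    simp [(V.mem_iff_boolIndicator a).1 haV] at h5

end Pool.Agent.Results.MP_1d4a49_gt.Neg
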